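import Pool.Agent.X13.AS.Core

/-!
# Helly numbers of aligned sums: examples (MP_65fb70_co)
-/

namespace Pool.Agent.X13.AS

variable {U : Type}

/-- the convex sets are the subsets of `F` and the sets containing `w` -/
def pt (X F : Set U) (w : U) : Set (Set U) := {A | A ⊆ X ∧ (A ⊆ F ∨ w ∈ A)}

theorem pt_aligned {X F : Set U} {w : U} (hw : w ∈ X) : Aligned X (pt X F w) where
  sub := fun A h => h.1
  empty_mem := ⟨Set.empty_subset _, Or.inl (Set.empty_subset _)⟩
  univ_mem := ⟨le_rfl, Or.inr hw⟩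
  inter := by
    intro G hG hne
    obtain ⟨A, hA⟩ := hne
    refine ⟨(Set.sInter_subset_of_mem hA).trans (hG hA).1, ?_⟩
    by_cases h : ∀ B ∈ G, w ∈ B
    · right; exact h
    · left
      push Not at h
      obtain ⟨B, hB, hwB⟩ := h
      exact (Set.sInter_subset_of_mem hB).trans ((hG hB).2.resolve_right hwB)
  chain := by
    intro G hG hne _
    refine ⟨Set.sUnion_subset fun A hA => (hG hA).1, ?_⟩
    by_cases h : ∃ B ∈ G, w ∈ B
    · right; exact h
    · left
      push Not at h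
      exact Set.sUnion_subset fun A hA => ((hG hA).2.resolve_right (h A hA))

theorem pt_hull {X F : Set U} {w : U} (hw : w ∈ X) {T : Set U} (hT : T ⊆ X) (x : U) :
    x ∈ hull (pt X F w) T ↔ x ∈ T ∨ (x = w ∧ ¬ T ⊆ F) := by
  constructor
  · intro h
    by_cases c : T ⊆ F
    · left; exact h T ⟨⟨hT, Or.inl c⟩, le_rfl⟩
    · have := h (insert w T) ⟨⟨Set.insert_subset hw hT, Or.inr (Set.mem_insert _ _)⟩,
        Set.subset_insert _ _⟩
      rcases Set.mem_insert_iff.1 this with g | g
      · right; exact ⟨g, c⟩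
      · left; exact g
  · rintro (h | ⟨rfl, h⟩)
    · exact subset_hull _ h
    · rintro A ⟨⟨_, hA⟩, hTA⟩
      rcases hA with g | g
      · exact absurd (hTA.trans g) h
      · exact g

theorem pt_core_mem {σ : ℕ} {X F : Set U} {w : U} (hw : w ∈ X) {S : Set U} (hS : S ⊆ X)
    (hc : ¬ (S \ F).encard ≤ σ) : w ∈ core σ (pt X F w) S := by
  intro M hM hMs
  rw [pt_hull hw (Set.diff_subset.trans hS)]
  right
  refine ⟨rfl, fun g => hc ?_⟩
  refine (Set.encard_le_encard ?_).trans hMs
  rintro y ⟨hy, hyF⟩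
  by_contra hyM
  exact hyF (g ⟨hy, hyM⟩)

theorem pt_core {σ : ℕ} (hσ : 1 ≤ σ) {X F : Set U} {w : U} (hw : w ∈ X) (hwF : w ∉ F)
    {S : Set U} (hS : S ⊆ X) : core σ (pt X F w) S = ∅ ↔ (S \ F).encard ≤ σ := by
  constructor
  · intro h
    by_contra hc
    have := pt_core_mem hw hS hc
    rw [h] at this
    exact this
  · intro h
    apply Set.eq_empty_of_forall_notMem
    intro x hx
    have h1 := hx (S \ F) Set.diff_subset h
    rw [pt_hull hw (Set.diff_subset.trans hS)] at h1
    have h2 : x ∈ S ∧ x ∈ F := by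
      rcases h1 with g | ⟨_, g⟩
      · exact ⟨g.1, by by_contra q; exact g.2 ⟨g.1, q⟩⟩
      · exfalso
        apply g
        intro y hy
        by_contra q
        exact hy.2 ⟨hy.1, q⟩
    have h3 := hx {x} (Set.singleton_subset_iff.2 h2.1) (by
      rw [Set.encard_singleton]; exact_mod_cast hσ)
    rw [pt_hull hw (Set.diff_subset.trans hS)] at h3
    rcases h3 with g | ⟨g, _⟩
    · exact g.2 rfl
    · exact hwF (g ▸ h2.2)

theorem pt_helly {σ : ℕ} (hσ : 1 ≤ σ) {X F : Set U} {w : U} (hw : w ∈ X) (hwF : w ∉ F)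
    (hF : F ⊆ X) (hc : (σ : ℕ∞) ≤ (X \ F).encard) : helly σ X (pt X F w) = F.encard + σ := by
  apply le_antisymm
  · apply helly_le
    intro S hS h
    rw [pt_core hσ hw hwF hS] at h
    have h1 : S ⊆ F ∪ (S \ F) := by
      intro x hx
      by_cases c : x ∈ F
      · left; exact c
      · right; exact ⟨hx, c⟩
    exact ((Set.encard_le_encard h1).trans (Set.encard_union_le _ _)).trans
      (add_le_add_right h _)
  · obtain ⟨G, hG, hGc⟩ := Set.exists_subset_encard_eq hc
    have hd : Disjoint F G := by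
      rw [Set.disjoint_left]
      intro x hx hxG
      exact (hG hxG).2 hx
    have h1 := Set.encard_union_eq hd
    rw [hGc] at h1
    rw [← h1]
    apply encard_le_helly
    · intro x hx
      rcases hx with h | h
      · exact hF h
      · exact (hG h).1
    · rw [pt_core hσ hw hwF]
      · refine (Set.encard_le_encard ?_).trans hGc.le
        rintro x ⟨h | h, h'⟩
        · exact absurd h h'
        · exact h
      · intro x hx
        rcases hx with h | h
        · exact hF h
        · exact (hG h).1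

theorem disc_aligned (X : Set U) : Aligned X (𝒫 X) where
  sub := fun A h => h
  empty_mem := Set.empty_subset _
  univ_mem := le_refl X
  inter := by
    rintro G hG ⟨A, hA⟩
    exact (Set.sInter_subset_of_mem hA).trans (hG hA)
  chain := by
    intro G hG _ _
    exact Set.sUnion_subset fun A hA => hG hA

theorem disc_hull {X T : Set U} (hT : T ⊆ X) : hull (𝒫 X) T ⊆ T :=
  Set.sInter_subset_of_mem ⟨hT, le_rfl⟩

theorem helly_free {σ : ℕ} (hσ : 1 ≤ σ) {X : Set U} {C : Set (Set U)}
    (h : ∀ T ⊆ X, hull C T ⊆ T) : helly σ X C = X.encard := by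
  apply le_antisymm helly_le_encard
  apply encard_le_helly le_rfl
  apply Set.eq_empty_of_forall_notMem
  intro x hx
  have h1 := h _ Set.diff_subset (hx ∅ (Set.empty_subset _) (by simp))
  have h2 := h _ Set.diff_subset (hx {x} (Set.singleton_subset_iff.2 h1.1) (by
    rw [Set.encard_singleton]; exact_mod_cast hσ))
  exact h2.2 rfl

theorem disc_helly {σ : ℕ} (hσ : 1 ≤ σ) (X : Set U) : helly σ X (𝒫 X) = X.encard :=
  helly_free hσ (fun _ hT => disc_hull hT)

/-- `X₁ ⊆ X₂` and a point of `X₂ \ X₁` in every nonempty core of `C₂` -/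
theorem sum_le_of_out {σ : ℕ} {X₁ : Set U} {C₁ : Set (Set U)} {X₂ : Set U} {C₂ : Set (Set U)}
    (h1 : Aligned X₁ C₁) (h2 : Aligned X₂ C₂) (h : X₁ ⊆ X₂) {w : U} (hw : w ∉ X₁)
    (hc : ∀ S ⊆ X₂, core σ C₂ S ≠ ∅ → w ∈ core σ C₂ S) :
    helly σ (X₁ ∪ X₂) (sumC X₁ C₁ X₂ C₂) ≤ helly σ X₂ C₂ := by
  apply helly_le
  intro S hS he
  have hS2 : S ⊆ X₂ := by rwa [Set.union_eq_self_of_subset_left h] at hS
  apply encard_le_helly hS2
  by_contra hne
  have h3 := hc S hS2 hne
  have : w ∈ core σ (sumC X₁ C₁ X₂ C₂) S := by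
    intro M hM hMs
    rw [hull_sum h1 h2 (Set.diff_subset.trans hS)]
    left; right
    refine ⟨?_, hw⟩
    rw [Set.inter_eq_left.2 (Set.diff_subset.trans hS2)]
    exact h3 M hM hMs
  rw [he] at this
  exact this

/-- the values of the `σ`-Helly number of the sum for given `σ`-Helly numbers of the two spaces -/
def Vals (σ : ℕ) (a b : ℕ∞) : Set ℕ∞ :=
  {h | ∃ (U : Type) (X₁ : Set U) (C₁ : Set (Set U)) (X₂ : Set U) (C₂ : Set (Set U)),
    Aligned X₁ C₁ ∧ Aligned X₂ C₂ ∧ helly σ X₁ C₁ = a ∧ helly σ X₂ C₂ = b ∧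
    helly σ (X₁ ∪ X₂) (sumC X₁ C₁ X₂ C₂) = h}

theorem vals_comm (σ : ℕ) (a b : ℕ∞) : Vals σ a b = Vals σ b a := by
  ext h
  constructor
  · rintro ⟨U, X₁, C₁, X₂, C₂, h1, h2, ha, hb, hh⟩
    exact ⟨U, X₂, C₂, X₁, C₁, h2, h1, hb, ha, by rw [sumC_comm, Set.union_comm]; exact hh⟩
  · rintro ⟨U, X₁, C₁, X₂, C₂, h1, h2, ha, hb, hh⟩
    exact ⟨U, X₂, C₂, X₁, C₁, h2, h1, hb, ha, by rw [sumC_comm, Set.union_comm]; exact hh⟩

/-- even numbers `≥ 2` -/
def E2 : Set ℕ := {n | n % 2 = 0 ∧ 2 ≤ n}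
/-- odd numbers `≥ 3` -/
def O2 : Set ℕ := {n | n % 2 = 1 ∧ 2 ≤ n}

theorem E2_top : E2.encard = ⊤ := by
  rw [Set.encard_eq_top_iff]
  refine Set.infinite_of_injective_forall_mem (f := fun n : ℕ => 2 * n + 2) ?_ ?_
  · intro x y h
    simp only at h
    omega
  · intro n
    show (2 * n + 2) % 2 = 0 ∧ 2 ≤ 2 * n + 2
    omega

theorem O2_top : O2.encard = ⊤ := by
  rw [Set.encard_eq_top_iff]
  refine Set.infinite_of_injective_forall_mem (f := fun n : ℕ => 2 * n + 3) ?_ ?_
  · intro x y h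
    simp only at h
    omega
  · intro n
    show (2 * n + 3) % 2 = 1 ∧ 2 ≤ 2 * n + 3
    omega

theorem exF (S : Set ℕ) (h : S.encard = ⊤) (k : ℕ∞) : ∃ F ⊆ S, F.encard = k :=
  Set.exists_subset_encard_eq (by rw [h]; exact le_top)

/-- the value `b` occurs if `σ ≤ b` -/
theorem val_b {σ : ℕ} (hσ : 1 ≤ σ) {a b : ℕ∞} (hb : σ ≤ b) : b ∈ Vals σ a b := by
  obtain ⟨F, hF, hFc⟩ := exF E2 E2_top (b - σ)
  have h0F : (0:ℕ) ∉ F := fun h => by have := (hF h).2; omega
  have hhb : helly σ Set.univ (pt Set.univ F 0) = b := by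
    rw [pt_helly hσ (Set.mem_univ _) h0F (Set.subset_univ _), hFc, tsub_add_cancel_of_le hb]
    refine le_trans le_top (le_of_eq_of_le O2_top.symm (Set.encard_le_encard ?_))
    intro x hx
    refine ⟨trivial, fun h => ?_⟩
    have := (hF h).1; have := hx.1; omega
  have hout : ∀ (X₁ : Set ℕ) (C₁ : Set (Set ℕ)), Aligned X₁ C₁ → helly σ X₁ C₁ = a → 0 ∉ X₁ →
      b ∈ Vals σ a b := by
    intro X₁ C₁ hA ha h0
    refine ⟨ℕ, X₁, C₁, Set.univ, pt Set.univ F 0, hA, pt_aligned (Set.mem_univ _), ha, hhb, ?_⟩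
    apply le_antisymm
    · refine (sum_le_of_out hA (pt_aligned (Set.mem_univ _)) (Set.subset_univ _) h0 ?_).trans hhb.le
      intro S hS hne
      apply pt_core_mem (Set.mem_univ _) hS
      intro hc
      exact hne ((pt_core hσ (Set.mem_univ _) h0F hS).2 hc)
    · exact hhb.symm.le.trans (ge_of_small hA (pt_aligned (Set.mem_univ _))
        (Or.inr (Set.subset_univ _)))
  rcases lt_or_ge a (σ:ℕ∞) with ha | ha
  · obtain ⟨G, hG, hGc⟩ := exF O2 O2_top a
    refine hout G (𝒫 G) (disc_aligned G) ?_ ?_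
    · rw [disc_helly hσ, hGc]
    · intro h; have := (hG h).2; omega
  · obtain ⟨G, hG, hGc⟩ := exF E2 E2_top (a - σ)
    have h1G : (1:ℕ) ∉ G := fun h => by have := (hG h).2; omega
    refine hout {n | n ≠ 0} (pt {n | n ≠ 0} G 1) (pt_aligned (by simp)) ?_ (by simp)
    rw [pt_helly hσ (by simp) h1G, hGc, tsub_add_cancel_of_le ha]
    · intro x hx
      have := (hG hx).2
      show x ≠ 0
      omega
    · refine le_trans le_top (le_of_eq_of_le O2_top.symm (Set.encard_le_encard ?_))
      intro x hx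
      refine ⟨?_, fun h => ?_⟩
      · have := hx.2
        show x ≠ 0
        omega
      · have := (hG h).1; have := hx.1; omega

/-- the value `b` occurs if `a ≤ b < σ` -/
theorem val_b' {σ : ℕ} (hσ : 1 ≤ σ) {a b : ℕ∞} (hab : a ≤ b) : b ∈ Vals σ a b := by
  rcases lt_or_ge b (σ:ℕ∞) with hb | hb
  · obtain ⟨F, hF, hFc⟩ := exF E2 E2_top b
    obtain ⟨G, hG, hGc⟩ := Set.exists_subset_encard_eq (hab.trans hFc.symm.le)
    refine ⟨ℕ, G, 𝒫 G, F, 𝒫 F, disc_aligned G, disc_aligned F, ?_, ?_, ?_⟩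
    · rw [disc_helly hσ, hGc]
    · rw [disc_helly hσ, hFc]
    · apply le_antisymm
      · refine helly_le_encard.trans ?_
        rw [Set.union_eq_self_of_subset_left hG, hFc]
      · refine le_trans ?_ (ge_of_small (disc_aligned G) (disc_aligned F) (Or.inr hG))
        rw [disc_helly hσ, hFc]
  · exact val_b hσ hb

/-- the value `⊤` occurs if `1 ≤ a` and `σ ≤ b` -/
theorem val_top {σ : ℕ} (hσ : 1 ≤ σ) {a b : ℕ∞} (ha1 : 1 ≤ a) (hb : σ ≤ b) : ⊤ ∈ Vals σ a b := by
  obtain ⟨F, hF, hFc⟩ := exF E2 E2_top (b - σ)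
  have h0F : (0:ℕ) ∉ F := fun h => by have := (hF h).2; omega
  have hhb : helly σ Set.univ (pt Set.univ F 0) = b := by
    rw [pt_helly hσ (Set.mem_univ _) h0F (Set.subset_univ _), hFc, tsub_add_cancel_of_le hb]
    refine le_trans le_top (le_of_eq_of_le O2_top.symm (Set.encard_le_encard ?_))
    intro x hx
    refine ⟨trivial, fun h => ?_⟩
    have := (hF h).1; have := hx.1; omega
  have huniv : (Set.univ : Set ℕ).encard = ⊤ := by
    rw [Set.encard_eq_top_iff]; exact Set.infinite_univ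
  rcases lt_or_ge a (σ:ℕ∞) with ha | ha
  · obtain ⟨G, h0G, hG, hGc⟩ := Set.exists_superset_subset_encard_eq (s := ({0} : Set ℕ))
      (t := Set.univ) (k := a) (Set.subset_univ _) (by rw [Set.encard_singleton]; exact ha1)
      (by rw [huniv]; exact le_top)
    have hA := disc_aligned G
    have hB : Aligned (Set.univ : Set ℕ) (pt Set.univ F 0) := pt_aligned (Set.mem_univ _)
    refine ⟨ℕ, G, 𝒫 G, Set.univ, pt Set.univ F 0, hA, hB, ?_, hhb, ?_⟩
    · rw [disc_helly hσ, hGc]
    · rw [helly_free hσ, Set.union_univ, huniv]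
      intro T hT x hx
      rw [hull_sum hA hB hT] at hx
      rcases hx with (h | h) | h
      · exact absurd (Set.mem_univ x) h.2
      · have h2 := (pt_hull (Set.mem_univ _) (Set.subset_univ _) x).1 h.1
        rcases h2 with g | g
        · exact g.1
        · exact absurd (h0G g.1) h.2
      · exact (disc_hull Set.inter_subset_right h.1).1
  · obtain ⟨G, hG, hGc⟩ := exF E2 E2_top (a - σ)
    have h1G : (1:ℕ) ∉ G := fun h => by have := (hG h).2; omega
    have hA : Aligned (Set.univ : Set ℕ) (pt Set.univ G 1) := pt_aligned (Set.mem_univ _)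
    have hB : Aligned (Set.univ : Set ℕ) (pt Set.univ F 0) := pt_aligned (Set.mem_univ _)
    refine ⟨ℕ, Set.univ, pt Set.univ G 1, Set.univ, pt Set.univ F 0, hA, hB, ?_, hhb, ?_⟩
    · rw [pt_helly hσ (Set.mem_univ _) h1G (Set.subset_univ _), hGc, tsub_add_cancel_of_le ha]
      refine le_trans le_top (le_of_eq_of_le O2_top.symm (Set.encard_le_encard ?_))
      intro x hx
      refine ⟨trivial, fun h => ?_⟩
      have := (hG h).1; have := hx.1; omega
    · rw [helly_free hσ, Set.union_univ, huniv]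
      intro T hT x hx
      rw [hull_sum hA hB hT] at hx
      rcases hx with (h | h) | h
      · exact absurd (Set.mem_univ x) h.2
      · exact absurd (Set.mem_univ x) h.2
      · have h2 := (pt_hull (Set.mem_univ _) (Set.subset_univ _) x).1 h.1
        have h3 := (pt_hull (Set.mem_univ _) (Set.subset_univ _) x).1 h.2
        rcases h2 with g | g
        · exact g.1
        · rcases h3 with g' | g'
          · exact g'.1
          · have h4 := g.1
            rw [g'.1] at h4
            exact absurd h4 (by norm_num)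

/-- the value `a + b` occurs if both are below `σ` -/
theorem val_add {σ : ℕ} (hσ : 1 ≤ σ) (a b : ℕ∞) (ha : a < σ) (hb : b < σ) :
    a + b ∈ Vals σ a b := by
  obtain ⟨F, hF, hFc⟩ := exF E2 E2_top a
  obtain ⟨G, hG, hGc⟩ := exF O2 O2_top b
  have hA := disc_aligned F
  have hB := disc_aligned G
  refine ⟨ℕ, F, 𝒫 F, G, 𝒫 G, hA, hB, ?_, ?_, ?_⟩
  · rw [disc_helly hσ, hFc]
  · rw [disc_helly hσ, hGc]
  · rw [helly_free hσ, Set.encard_union_eq, hFc, hGc]
    · rw [Set.disjoint_left]
      intro x hx hx'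
      have := (hF hx).1; have := (hG hx').1; omega
    · intro T hT x hx
      rw [hull_sum hA hB hT] at hx
      rcases hx with (h | h) | h
      · exact (disc_hull Set.inter_subset_right h.1).1
      · exact (disc_hull Set.inter_subset_right h.1).1
      · exact (disc_hull Set.inter_subset_right h.1).1

/-- a value `≤ 2σ` occurs if both are at least `σ` -/
theorem val_two {σ : ℕ} (hσ : 1 ≤ σ) {a b : ℕ∞} (ha : σ ≤ a) (hb : σ ≤ b) :
    ∃ h ∈ Vals σ a b, h ≤ 2 * (σ : ℕ∞) := by
  obtain ⟨F, hF, hFc⟩ := exF E2 E2_top (a - σ)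
  obtain ⟨G, hG, hGc⟩ := exF O2 O2_top (b - σ)
  have h0F : (0:ℕ) ∉ F := fun h => by have := (hF h).2; omega
  have h1G : (1:ℕ) ∉ G := fun h => by have := (hG h).2; omega
  have hA : Aligned {n : ℕ | n ≠ 1} (pt {n : ℕ | n ≠ 1} F 0) := pt_aligned (by simp)
  have hB : Aligned {n : ℕ | n ≠ 0} (pt {n : ℕ | n ≠ 0} G 1) := pt_aligned (by simp)
  refine ⟨_, ⟨ℕ, {n : ℕ | n ≠ 1}, pt {n : ℕ | n ≠ 1} F 0, {n : ℕ | n ≠ 0},
    pt {n : ℕ | n ≠ 0} G 1, hA, hB, ?_, ?_, rfl⟩, ?_⟩
  · rw [pt_helly hσ (by simp) h0F, hFc, tsub_add_cancel_of_le ha]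
    · intro x hx
      have := (hF hx).2
      show x ≠ 1
      omega
    · refine le_trans le_top (le_of_eq_of_le O2_top.symm (Set.encard_le_encard ?_))
      intro x hx
      refine ⟨?_, fun h => ?_⟩
      · have := hx.2
        show x ≠ 1
        omega
      · have := (hF h).1; have := hx.1; omega
  · rw [pt_helly hσ (by simp) h1G, hGc, tsub_add_cancel_of_le hb]
    · intro x hx
      have := (hG hx).2
      show x ≠ 0
      omega
    · refine le_trans le_top (le_of_eq_of_le E2_top.symm (Set.encard_le_encard ?_))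
      intro x hx
      refine ⟨?_, fun h => ?_⟩
      · have := hx.2
        show x ≠ 0
        omega
      · have := (hG h).1; have := hx.1; omega
  · apply helly_le
    intro S hS he
    have k1 : ((S ∩ {n | n ≠ 1}) \ F).encard ≤ σ := by
      by_contra hc
      have h3 := pt_core_mem (w := 0) (by simp) Set.inter_subset_right hc
      have : 0 ∈ core σ (sumC {n : ℕ | n ≠ 1} (pt {n : ℕ | n ≠ 1} F 0) {n : ℕ | n ≠ 0}
          (pt {n : ℕ | n ≠ 0} G 1)) S := by
        intro M hM hMs
        rw [hull_sum hA hB (Set.diff_subset.trans hS)]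
        left; left
        refine ⟨?_, by simp⟩
        have h4 := h3 (M ∩ {n | n ≠ 1}) (Set.inter_subset_inter_left _ hM)
          ((Set.encard_le_encard Set.inter_subset_left).trans hMs)
        have e : (S ∩ {n | n ≠ 1}) \ (M ∩ {n | n ≠ 1}) = (S \ M) ∩ {n | n ≠ 1} := by
          ext y
          simp only [Set.mem_diff, Set.mem_inter_iff]
          tauto
        rw [e] at h4
        exact h4
      rw [he] at this
      exact this
    have k2 : ((S ∩ {n | n ≠ 0}) \ G).encard ≤ σ := by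
      by_contra hc
      have h3 := pt_core_mem (w := 1) (by simp) Set.inter_subset_right hc
      have : 1 ∈ core σ (sumC {n : ℕ | n ≠ 1} (pt {n : ℕ | n ≠ 1} F 0) {n : ℕ | n ≠ 0}
          (pt {n : ℕ | n ≠ 0} G 1)) S := by
        intro M hM hMs
        rw [hull_sum hA hB (Set.diff_subset.trans hS)]
        left; right
        refine ⟨?_, by simp⟩
        have h4 := h3 (M ∩ {n | n ≠ 0}) (Set.inter_subset_inter_left _ hM)
          ((Set.encard_le_encard Set.inter_subset_left).trans hMs)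
        have e : (S ∩ {n | n ≠ 0}) \ (M ∩ {n | n ≠ 0}) = (S \ M) ∩ {n | n ≠ 0} := by
          ext y
          simp only [Set.mem_diff, Set.mem_inter_iff]
          tauto
        rw [e] at h4
        exact h4
      rw [he] at this
      exact this
    have hcov : S ⊆ ((S ∩ {n | n ≠ 1}) \ F) ∪ ((S ∩ {n | n ≠ 0}) \ G) := by
      intro x hx
      by_cases c1 : x = 1
      · right
        rw [c1] at hx ⊢
        exact ⟨⟨hx, by simp⟩, h1G⟩
      · by_cases c2 : x ∈ F
        · right
          refine ⟨⟨hx, ?_⟩, ?_⟩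
          · have := (hF c2).2
            show x ≠ 0
            omega
          · intro h
            have := (hF c2).1; have := (hG h).1; omega
        · left
          exact ⟨⟨hx, c1⟩, c2⟩
    refine ((Set.encard_le_encard hcov).trans (Set.encard_union_le _ _)).trans ?_
    rw [two_mul]
    exact add_le_add k1 k2

end Pool.Agent.X13.AS
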