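import Mathlib

/-!
# Helly numbers of aligned sums (MP_65fb70_co)
-/

namespace Pool.Agent.X13.AS

variable {U : Type}

/-- `(X, C)` is an aligned space. -/
structure Aligned (X : Set U) (C : Set (Set U)) : Prop where
  sub : ∀ A ∈ C, A ⊆ X
  empty_mem : ∅ ∈ C
  univ_mem : X ∈ C
  inter : ∀ F ⊆ C, F.Nonempty → ⋂₀ F ∈ C
  chain : ∀ F ⊆ C, F.Nonempty → IsChain (· ⊆ ·) F → ⋃₀ F ∈ C

/-- The hull. -/
def hull (C : Set (Set U)) (S : Set U) : Set U := ⋂₀ {A | A ∈ C ∧ S ⊆ A}

/-- The `σ`-core. -/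
def core (σ : ℕ) (C : Set (Set U)) (S : Set U) : Set U :=
  {x | ∀ M ⊆ S, M.encard ≤ σ → x ∈ hull C (S \ M)}

/-- The `σ`-Helly number. -/
noncomputable def helly (σ : ℕ) (X : Set U) (C : Set (Set U)) : ℕ∞ :=
  sInf {k : ℕ∞ | ∃ j : ℕ, (j : ℕ∞) = k ∧
    ∀ S ⊆ X, (j : ℕ∞) + 1 ≤ S.encard → (core σ C S).Nonempty}

/-- The aligned sum. -/
def sumC (X₁ : Set U) (C₁ : Set (Set U)) (X₂ : Set U) (C₂ : Set (Set U)) : Set (Set U) :=
  {D | ∃ A ∈ C₁, ∃ B ∈ C₂, D = (A \ X₂) ∪ (B \ X₁) ∪ (A ∩ B)}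

theorem encard_le_helly {σ : ℕ} {X : Set U} {C : Set (Set U)} {S : Set U} (hS : S ⊆ X)
    (h : core σ C S = ∅) : S.encard ≤ helly σ X C := by
  apply le_sInf
  rintro k ⟨j, rfl, hj⟩
  by_contra hlt
  push Not at hlt
  have := hj S hS (Order.add_one_le_of_lt hlt)
  rw [h] at this
  exact Set.not_nonempty_empty this

theorem helly_le {σ : ℕ} {X : Set U} {C : Set (Set U)} {k : ℕ∞}
    (h : ∀ S ⊆ X, core σ C S = ∅ → S.encard ≤ k) : helly σ X C ≤ k := by
  induction k using ENat.recTopCoe with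
  | top => exact le_top
  | coe j =>
    apply sInf_le
    refine ⟨j, rfl, ?_⟩
    intro S hS hj
    by_contra hne
    rw [Set.not_nonempty_iff_eq_empty] at hne
    have := h S hS hne
    have h2 := hj.trans this
    have h3 : (j:ℕ∞) < (j:ℕ∞) + 1 := by
      exact_mod_cast Nat.lt_succ_self j
    exact absurd h2 (not_le.2 h3)

theorem hull_empty {X : Set U} {C : Set (Set U)} (hA : Aligned X C) : hull C ∅ = ∅ := by
  apply Set.eq_empty_of_subset_empty
  exact Set.sInter_subset_of_mem ⟨hA.empty_mem, le_rfl⟩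

theorem subset_hull {C : Set (Set U)} (S : Set U) : S ⊆ hull C S := by
  intro x hx A hA
  exact hA.2 hx

theorem hull_mem {X : Set U} {C : Set (Set U)} (hA : Aligned X C) {S : Set U} (hS : S ⊆ X) :
    hull C S ∈ C := by
  apply hA.inter
  · intro A h; exact h.1
  · exact ⟨X, hA.univ_mem, hS⟩

theorem hull_sub {X : Set U} {C : Set (Set U)} (hA : Aligned X C) {S : Set U} (hS : S ⊆ X) :
    hull C S ⊆ X := Set.sInter_subset_of_mem ⟨hA.univ_mem, hS⟩

theorem core_small {σ : ℕ} {X : Set U} {C : Set (Set U)} (hA : Aligned X C) {S : Set U}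
    (h : S.encard ≤ σ) : core σ C S = ∅ := by
  apply Set.eq_empty_of_forall_notMem
  intro x hx
  have := hx S le_rfl h
  rw [Set.diff_self, hull_empty hA] at this
  exact this

theorem helly_le_encard {σ : ℕ} {X : Set U} {C : Set (Set U)} : helly σ X C ≤ X.encard :=
  helly_le (fun _ hS _ => Set.encard_le_encard hS)

/-- a helly number below `σ` is the number of points -/
theorem encard_of_lt {σ : ℕ} {X : Set U} {C : Set (Set U)} (hA : Aligned X C)
    (h : helly σ X C < σ) : X.encard = helly σ X C := by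
  apply le_antisymm _ helly_le_encard
  by_contra hlt
  push Not at hlt
  rcases le_total X.encard (σ:ℕ∞) with h1 | h1
  · exact absurd (encard_le_helly (C := C) le_rfl (core_small hA h1)) (not_le.2 hlt)
  · obtain ⟨S, hS, hc⟩ := Set.exists_subset_encard_eq h1
    have := encard_le_helly hS (core_small (σ := σ) hA hc.le)
    rw [hc] at this
    exact absurd this (not_le.2 h)

theorem min_le_helly {σ : ℕ} {X : Set U} {C : Set (Set U)} (hA : Aligned X C) :
    min X.encard σ ≤ helly σ X C := by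
  by_contra h
  push Not at h
  rw [lt_min_iff] at h
  have := encard_of_lt hA h.2
  rw [this] at h
  exact lt_irrefl _ h.1

theorem sumC_comm (X₁ : Set U) (C₁ : Set (Set U)) (X₂ : Set U) (C₂ : Set (Set U)) :
    sumC X₁ C₁ X₂ C₂ = sumC X₂ C₂ X₁ C₁ := by
  ext D
  constructor
  · rintro ⟨A, hA, B, hB, rfl⟩
    refine ⟨B, hB, A, hA, ?_⟩
    rw [Set.union_comm (A \ X₂), Set.inter_comm]
  · rintro ⟨A, hA, B, hB, rfl⟩
    refine ⟨B, hB, A, hA, ?_⟩
    rw [Set.union_comm (A \ X₁), Set.inter_comm]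

theorem hull_sum {X₁ : Set U} {C₁ : Set (Set U)} {X₂ : Set U} {C₂ : Set (Set U)}
    (h1 : Aligned X₁ C₁) (h2 : Aligned X₂ C₂) {T : Set U} (hT : T ⊆ X₁ ∪ X₂) :
    hull (sumC X₁ C₁ X₂ C₂) T = (hull C₁ (T ∩ X₁) \ X₂) ∪ (hull C₂ (T ∩ X₂) \ X₁) ∪
      (hull C₁ (T ∩ X₁) ∩ hull C₂ (T ∩ X₂)) := by
  apply Set.Subset.antisymm
  · apply Set.sInter_subset_of_mem
    refine ⟨⟨_, hull_mem h1 Set.inter_subset_right, _, hull_mem h2 Set.inter_subset_right, rfl⟩, ?_⟩
    intro x hx
    by_cases a : x ∈ X₁ <;> by_cases b : x ∈ X₂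
    · right; exact ⟨subset_hull _ ⟨hx, a⟩, subset_hull _ ⟨hx, b⟩⟩
    · left; left; exact ⟨subset_hull _ ⟨hx, a⟩, b⟩
    · left; right; exact ⟨subset_hull _ ⟨hx, b⟩, a⟩
    · exact absurd (hT hx) (by simp [a, b])
  · intro x hx D hD
    obtain ⟨⟨A, hA, B, hB, rfl⟩, hTD⟩ := hD
    have hTA : T ∩ X₁ ⊆ A := by
      rintro y ⟨hy, hy1⟩
      rcases hTD hy with (h | h) | h
      · exact h.1
      · exact absurd hy1 h.2
      · exact h.1
    have hTB : T ∩ X₂ ⊆ B := by
      rintro y ⟨hy, hy1⟩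
      rcases hTD hy with (h | h) | h
      · exact absurd hy1 h.2
      · exact h.1
      · exact h.2
    have kA : hull C₁ (T ∩ X₁) ⊆ A := Set.sInter_subset_of_mem ⟨hA, hTA⟩
    have kB : hull C₂ (T ∩ X₂) ⊆ B := Set.sInter_subset_of_mem ⟨hB, hTB⟩
    rcases hx with (h | h) | h
    · left; left; exact ⟨kA h.1, h.2⟩
    · left; right; exact ⟨kB h.1, h.2⟩
    · right; exact ⟨kA h.1, kB h.2⟩

/-- the aligned sum is an aligned space: only the closure under intersections and `∅, X` are needed -/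
theorem core_sum_small {σ : ℕ} {X₁ : Set U} {C₁ : Set (Set U)} {X₂ : Set U} {C₂ : Set (Set U)}
    (h1 : Aligned X₁ C₁) (h2 : Aligned X₂ C₂) {S : Set U} (hS : S ⊆ X₁ ∪ X₂)
    (h : S.encard ≤ σ) : core σ (sumC X₁ C₁ X₂ C₂) S = ∅ := by
  apply Set.eq_empty_of_forall_notMem
  intro x hx
  have := hx S le_rfl h
  rw [Set.diff_self, hull_sum h1 h2 (Set.empty_subset _), Set.empty_inter, Set.empty_inter,
    hull_empty h1, hull_empty h2] at this
  simp at this

/-- if `X₁` has fewer than `σ` points, the sum has at least the Helly number of `C₂` -/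
theorem ge_of_small {σ : ℕ} {X₁ : Set U} {C₁ : Set (Set U)} {X₂ : Set U} {C₂ : Set (Set U)}
    (h1 : Aligned X₁ C₁) (h2 : Aligned X₂ C₂) (h : X₁.encard ≤ σ ∨ X₁ ⊆ X₂) :
    helly σ X₂ C₂ ≤ helly σ (X₁ ∪ X₂) (sumC X₁ C₁ X₂ C₂) := by
  apply helly_le
  intro S hS hc
  have hSX : S ⊆ X₁ ∪ X₂ := hS.trans Set.subset_union_right
  apply encard_le_helly hSX
  apply Set.eq_empty_of_forall_notMem
  intro x hx
  have hmem : x ∈ core σ C₂ S := by
    have hd : ∀ M ⊆ S, M.encard ≤ σ → x ∈ hull C₂ (S \ M) ∨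
        (x ∈ hull C₁ ((S \ M) ∩ X₁) ∧ x ∉ X₂) := by
      intro M hM hMs
      have := hx M hM hMs
      rw [hull_sum h1 h2 (Set.diff_subset.trans hSX)] at this
      have e : (S \ M) ∩ X₂ = S \ M := Set.inter_eq_left.2 (Set.diff_subset.trans hS)
      rw [e] at this
      rcases this with (g | g) | g
      · right; exact g
      · left; exact g.1
      · left; exact g.2
    rcases h with h | h
    · -- remove `S ∩ X₁`
      have h3 := hx (S ∩ X₁) Set.inter_subset_left ((Set.encard_le_encard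
        Set.inter_subset_right).trans h)
      have e1 : (S \ (S ∩ X₁)) ∩ X₁ = ∅ := by
        ext y; simp only [Set.mem_inter_iff, Set.mem_diff, Set.mem_empty_iff_false]; tauto
      rw [hull_sum h1 h2 (Set.diff_subset.trans hSX), e1, hull_empty h1] at h3
      have hx2 : x ∈ X₂ := by
        rcases h3 with (g | g) | g
        · exact absurd g.1 (Set.notMem_empty x)
        · exact hull_sub h2 Set.inter_subset_right g.1
        · exact absurd g.1 (Set.notMem_empty x)
      intro M hM hMs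
      rcases hd M hM hMs with g | g
      · exact g
      · exact absurd hx2 g.2
    · intro M hM hMs
      rcases hd M hM hMs with g | g
      · exact g
      · exact absurd (h (hull_sub h1 Set.inter_subset_right g.1)) g.2
  rw [hc] at hmem
  exact hmem

/-- general lower bound if both numbers are at least `σ` -/
theorem lower_general {σ : ℕ} (hσ : 1 ≤ σ) {X₁ : Set U} {C₁ : Set (Set U)} {X₂ : Set U}
    {C₂ : Set (Set U)} (h1 : Aligned X₁ C₁) (h2 : Aligned X₂ C₂) :
    min (min (helly σ X₁ C₁) (helly σ X₂ C₂)) (σ + 1)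
      ≤ helly σ (X₁ ∪ X₂) (sumC X₁ C₁ X₂ C₂) := by
  by_cases a : X₁ ⊆ X₂
  · exact ((min_le_left _ _).trans (min_le_right _ _)).trans (ge_of_small h1 h2 (Or.inr a))
  by_cases b : X₂ ⊆ X₁
  · have := ge_of_small (σ := σ) h2 h1 (Or.inr b)
    rw [sumC_comm, Set.union_comm] at this
    exact ((min_le_left _ _).trans (min_le_left _ _)).trans this
  obtain ⟨u, hu1, hu2⟩ := Set.not_subset.1 a
  obtain ⟨v, hv1, hv2⟩ := Set.not_subset.1 b
  by_contra hlt
  push Not at hlt
  have hX : (helly σ X₁ C₁) ≤ X₁.encard := helly_le_encard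
  -- the number of points of `X₁ \ {u}`
  rcases le_or_gt (σ:ℕ∞) X₁.encard with hc | hc
  · have hc' : ((σ - 1 : ℕ) : ℕ∞) ≤ (X₁ \ {u}).encard := by
      have h3 : (X₁ \ {u}).encard + 1 = X₁.encard := Set.encard_diff_singleton_add_one hu1
      rw [← h3] at hc
      have e : ((σ - 1 : ℕ) : ℕ∞) + 1 = σ := by
        exact_mod_cast Nat.sub_add_cancel hσ
      rw [← e] at hc
      exact (ENat.add_le_add_iff_right ENat.one_ne_top).1 hc
    obtain ⟨W, hW, hWc⟩ := Set.exists_subset_encard_eq hc'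
    have huW : u ∉ W := fun h => (hW h).2 rfl
    have hvW : v ∉ insert u W := by
      intro h
      rcases Set.mem_insert_iff.1 h with h | h
      · rw [h] at hv2; exact hv2 hu1
      · exact hv2 (hW h).1
    have e2 : (insert u W).encard = σ := by
      rw [Set.encard_insert_of_notMem huW, hWc]
      exact_mod_cast Nat.sub_add_cancel hσ
    have e3 : (insert v (insert u W)).encard = σ + 1 := by
      rw [Set.encard_insert_of_notMem hvW, e2]
    have hSX : insert v (insert u W) ⊆ X₁ ∪ X₂ := by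
      intro x hx
      rcases Set.mem_insert_iff.1 hx with h | h
      · right; rw [h]; exact hv1
      · rcases Set.mem_insert_iff.1 h with h | h
        · left; rw [h]; exact hu1
        · left; exact (hW h).1
    have hcore : core σ (sumC X₁ C₁ X₂ C₂) (insert v (insert u W)) = ∅ := by
      apply Set.eq_empty_of_forall_notMem
      intro x hx
      have g1 := hx (insert u W) (Set.subset_insert _ _) e2.le
      have g2 := hx (insert v W) (Set.insert_subset_insert (Set.subset_insert _ _)) (by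
        refine (Set.encard_insert_le _ _).trans ?_
        rw [hWc]
        exact_mod_cast (Nat.sub_add_cancel hσ).le)
      rw [hull_sum h1 h2 (Set.diff_subset.trans hSX)] at g1 g2
      have e4 : (insert v (insert u W) \ insert u W) ∩ X₁ = ∅ := by
        ext y
        simp only [Set.mem_inter_iff, Set.mem_diff, Set.mem_insert_iff, Set.mem_empty_iff_false,
          iff_false]
        rintro ⟨⟨h | h, h'⟩, h''⟩
        · rw [h] at h''; exact hv2 h''
        · exact h' h
      have e5 : (insert v (insert u W) \ insert v W) ∩ X₂ = ∅ := by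
        ext y
        simp only [Set.mem_inter_iff, Set.mem_diff, Set.mem_insert_iff, Set.mem_empty_iff_false,
          iff_false]
        rintro ⟨⟨h | h | h, h'⟩, h''⟩
        · exact h' (Or.inl h)
        · rw [h] at h''; exact hu2 h''
        · exact h' (Or.inr h)
      rw [e4, hull_empty h1] at g1
      rw [e5, hull_empty h2] at g2
      have k1 : x ∉ X₁ := by
        rcases g1 with (g | g) | g
        · exact absurd g.1 (Set.notMem_empty x)
        · exact g.2
        · exact absurd g.1 (Set.notMem_empty x)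
      rcases g2 with (g | g) | g
      · exact k1 (hull_sub h1 Set.inter_subset_right g.1)
      · exact absurd g.1 (Set.notMem_empty x)
      · exact absurd g.2 (Set.notMem_empty x)
    have := encard_le_helly hSX hcore
    rw [e3] at this
    exact absurd (this.trans_lt hlt) (not_lt.2 (min_le_right _ _))
  · -- X₁ has fewer than σ points: then its Helly number is its number of points
    have h3 := encard_le_helly (σ := σ) (X := X₁ ∪ X₂) (S := X₁) Set.subset_union_left
      (core_sum_small h1 h2 Set.subset_union_left hc.le)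
    exact absurd ((hX.trans h3).trans_lt hlt) (not_lt.2 ((min_le_left _ _).trans (min_le_left _ _)))

/-- lower bound if one number is below `σ` -/
theorem lower_small {σ : ℕ} {X₁ : Set U} {C₁ : Set (Set U)} {X₂ : Set U}
    {C₂ : Set (Set U)} (h1 : Aligned X₁ C₁) (h2 : Aligned X₂ C₂)
    (h : helly σ X₁ C₁ < σ ∨ helly σ X₂ C₂ < σ) :
    max (helly σ X₁ C₁) (helly σ X₂ C₂) ≤ helly σ (X₁ ∪ X₂) (sumC X₁ C₁ X₂ C₂) := by
  have key : ∀ {X₁ : Set U} {C₁ : Set (Set U)} {X₂ : Set U} {C₂ : Set (Set U)}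
      (_ : Aligned X₁ C₁) (_ : Aligned X₂ C₂), helly σ X₁ C₁ < σ →
      max (helly σ X₁ C₁) (helly σ X₂ C₂) ≤ helly σ (X₁ ∪ X₂) (sumC X₁ C₁ X₂ C₂) := by
    intro X₁ C₁ X₂ C₂ h1 h2 h
    have e := encard_of_lt h1 h
    have hle : X₁.encard ≤ σ := by rw [e]; exact h.le
    refine max_le ?_ (ge_of_small h1 h2 (Or.inl hle))
    rw [← e]
    exact encard_le_helly Set.subset_union_left (core_sum_small h1 h2 Set.subset_union_left hle)
  rcases h with h | h
  · exact key h1 h2 h
  · have := key h2 h1 h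
    rw [sumC_comm, Set.union_comm, max_comm] at this
    exact this

theorem upper_small {σ : ℕ} {X₁ : Set U} {C₁ : Set (Set U)} {X₂ : Set U}
    {C₂ : Set (Set U)} (h1 : Aligned X₁ C₁) (h2 : Aligned X₂ C₂)
    (h : helly σ X₁ C₁ < σ) (h' : helly σ X₂ C₂ < σ) :
    helly σ (X₁ ∪ X₂) (sumC X₁ C₁ X₂ C₂) ≤ helly σ X₁ C₁ + helly σ X₂ C₂ := by
  rw [← encard_of_lt h1 h, ← encard_of_lt h2 h']
  exact helly_le_encard.trans (Set.encard_union_le _ _)

theorem upper_zero {σ : ℕ} (hσ : 1 ≤ σ) {X₁ : Set U} {C₁ : Set (Set U)} {X₂ : Set U}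
    {C₂ : Set (Set U)} (h1 : Aligned X₁ C₁) (h2 : Aligned X₂ C₂) (h : helly σ X₁ C₁ = 0) :
    helly σ (X₁ ∪ X₂) (sumC X₁ C₁ X₂ C₂) ≤ helly σ X₂ C₂ := by
  have hlt : helly σ X₁ C₁ < σ := by rw [h]; exact_mod_cast hσ
  have e := encard_of_lt h1 hlt
  rw [h, Set.encard_eq_zero] at e
  subst e
  rw [Set.empty_union]
  apply helly_le
  intro S hS hc
  apply encard_le_helly hS
  rw [← hc]
  ext x
  have hh : ∀ M, hull (sumC ∅ C₁ X₂ C₂) (S \ M) = hull C₂ (S \ M) := by
    intro M
    rw [hull_sum h1 h2 (by rw [Set.empty_union]; exact Set.diff_subset.trans hS), Set.inter_empty,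
      hull_empty h1, Set.inter_eq_left.2 (Set.diff_subset.trans hS)]
    simp
  simp only [core, Set.mem_setOf_eq, hh]

end Pool.Agent.X13.AS
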