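import Pool.Agent.X13.AS.Core

/-!
# Helly numbers of aligned sums: the lower bound `σ + 2` (MP_65fb70_co)
-/

namespace Pool.Agent.X13.AS

variable {U : Type}

/-- what it means for a point to lie in the hull of the sum -/
theorem mem_hull_sum {X₁ : Set U} {C₁ : Set (Set U)} {X₂ : Set U} {C₂ : Set (Set U)}
    (h1 : Aligned X₁ C₁) (h2 : Aligned X₂ C₂) {T : Set U} (hT : T ⊆ X₁ ∪ X₂) {x : U}
    (hx : x ∈ hull (sumC X₁ C₁ X₂ C₂) T) :
    (x ∈ X₁ ∨ x ∈ X₂) ∧ (x ∈ X₁ → x ∈ hull C₁ (T ∩ X₁)) ∧ (x ∈ X₂ → x ∈ hull C₂ (T ∩ X₂)) := by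
  rw [hull_sum h1 h2 hT] at hx
  rcases hx with (h | h) | h
  · exact ⟨Or.inl (hull_sub h1 Set.inter_subset_right h.1), fun _ => h.1, fun g => absurd g h.2⟩
  · exact ⟨Or.inr (hull_sub h2 Set.inter_subset_right h.1), fun g => absurd g h.2, fun _ => h.1⟩
  · exact ⟨Or.inl (hull_sub h1 Set.inter_subset_right h.1), fun _ => h.1, fun _ => h.2⟩

theorem hull_mono {C : Set (Set U)} {S T : Set U} (h : S ⊆ T) : hull C S ⊆ hull C T := by
  intro x hx A hA
  exact hx A ⟨hA.1, h.trans hA.2⟩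

theorem hull_le_of_mem {X : Set U} {C : Set (Set U)} (hA : Aligned X C) {S : Set U} (hS : S ⊆ X)
    {x : U} (hx : x ∈ hull C S) : hull C {x} ⊆ hull C S :=
  Set.sInter_subset_of_mem ⟨hull_mem hA hS, Set.singleton_subset_iff.2 hx⟩

theorem exists_empty_core {σ : ℕ} {X : Set U} {C : Set (Set U)} {j : ℕ}
    (h : (j : ℕ∞) < helly σ X C) : ∃ S ⊆ X, (j : ℕ∞) + 1 ≤ S.encard ∧ core σ C S = ∅ := by
  by_contra hc
  push Not at hc
  have : helly σ X C ≤ j := by
    apply sInf_le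
    refine ⟨j, rfl, ?_⟩
    intro S hS hj
    exact hc S hS hj
  exact absurd h (not_lt.2 this)

/-- case of exactly one point of `X₁` outside `X₂` -/
theorem low_one {σ : ℕ} (hσ : 2 ≤ σ) {X₁ : Set U} {C₁ : Set (Set U)} {X₂ : Set U}
    {C₂ : Set (Set U)} (h1 : Aligned X₁ C₁) (h2 : Aligned X₂ C₂)
    (ha : (σ : ℕ∞) < helly σ X₁ C₁) (hb : (σ : ℕ∞) < helly σ X₂ C₂)
    {u v : U} (hu : u ∈ X₁) (hu2 : u ∉ X₂) (hone : ∀ x ∈ X₁, x ∉ X₂ → x = u)
    (hv : v ∈ X₂) (hv1 : v ∉ X₁) :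
    (σ : ℕ∞) + 2 ≤ helly σ (X₁ ∪ X₂) (sumC X₁ C₁ X₂ C₂) := by
  by_contra hlt
  push Not at hlt
  -- the convex set `D`
  obtain ⟨D, hD, hDX, huD, d, hd⟩ : ∃ D, D ∈ C₁ ∧ D ⊆ X₁ ∧ u ∉ D ∧ ∃ d, d ∈ D := by
    obtain ⟨S, hS, hcard, hc⟩ := exists_empty_core ha
    have : u ∉ core σ C₁ S := by rw [hc]; exact Set.notMem_empty u
    simp only [core, Set.mem_setOf_eq] at this
    push Not at this
    obtain ⟨M, hM, hMs, hu'⟩ := this
    refine ⟨hull C₁ (S \ M), hull_mem h1 (Set.diff_subset.trans hS),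
      hull_sub h1 (Set.diff_subset.trans hS), hu', ?_⟩
    have hne : (S \ M).Nonempty := by
      rw [Set.nonempty_iff_ne_empty]
      intro he
      have hSM : S ⊆ M := Set.diff_eq_empty.1 he
      have := hcard.trans ((Set.encard_le_encard hSM).trans hMs)
      have h3 : (σ:ℕ∞) < (σ:ℕ∞) + 1 := by exact_mod_cast Nat.lt_succ_self σ
      exact absurd this (not_le.2 h3)
    obtain ⟨d, hd⟩ := hne
    exact ⟨d, subset_hull _ hd⟩
  have hd2 : d ∈ X₂ := by
    by_contra h
    exact huD (hone d (hDX hd) h ▸ hd)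
  have hX2 : ((σ : ℕ∞) + 1) ≤ X₂.encard :=
    (Order.add_one_le_of_lt hb).trans helly_le_encard
  -- step
  have main : ∀ T₂ ⊆ X₂, T₂.encard = (σ : ℕ∞) + 1 → (∃ z ∈ T₂, z ∉ X₁) → (∃ d ∈ T₂, d ∈ D) →
      ∃ p, p ∈ X₂ ∧ (p ∉ X₁ ∨ p ∈ D) ∧ ∀ s ∈ T₂, p ∈ hull C₂ {s} := by
    intro T₂ hT₂ hc hz hd'
    obtain ⟨z, hz, hz1⟩ := hz
    obtain ⟨e, he, heD⟩ := hd'
    have huT : u ∉ T₂ := fun h => hu2 (hT₂ h)
    have hTX : insert u T₂ ⊆ X₁ ∪ X₂ := by
      intro x hx
      rcases Set.mem_insert_iff.1 hx with h | h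
      · left; rw [h]; exact hu
      · right; exact hT₂ h
    have hTc : (insert u T₂).encard = (σ : ℕ∞) + 2 := by
      rw [Set.encard_insert_of_notMem huT, hc, add_assoc]
      norm_num
    have hne : core σ (sumC X₁ C₁ X₂ C₂) (insert u T₂) ≠ ∅ := by
      intro h
      have := encard_le_helly hTX h
      rw [hTc] at this
      exact absurd this (not_le.2 hlt)
    obtain ⟨p, hp⟩ := Set.nonempty_iff_ne_empty.2 hne
    -- hulls of `{u, s}`
    have hs : ∀ s ∈ T₂, (p ∈ X₁ ∨ p ∈ X₂) ∧ (p ∈ X₂ → p ∈ hull C₂ {s}) := by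
      intro s hs
      have hMc : (T₂ \ {s}).encard ≤ σ := by
        have h3 : (T₂ \ {s}).encard + 1 = T₂.encard := Set.encard_diff_singleton_add_one hs
        rw [hc] at h3
        exact ((ENat.add_le_add_iff_right ENat.one_ne_top).1 h3.le)
      have h4 := hp (T₂ \ {s}) (Set.diff_subset.trans (Set.subset_insert _ _)) hMc
      have h5 := mem_hull_sum h1 h2 (Set.diff_subset.trans hTX) h4
      refine ⟨h5.1, fun h => ?_⟩
      refine hull_mono ?_ (h5.2.2 h)
      rintro y ⟨⟨hy, hy'⟩, hy2⟩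
      rcases Set.mem_insert_iff.1 hy with g | g
      · rw [g] at hy2; exact absurd hy2 hu2
      · by_contra hys
        exact hy' ⟨g, hys⟩
    have hpD : p ∈ X₁ → p ∈ D := by
      intro h
      have hze : z ≠ e := fun g => hz1 (g ▸ hDX heD)
      have hMc : (insert u T₂ \ {z, e}).encard ≤ σ := by
        have h3 : (insert u T₂ \ {z, e}).encard + ({z, e} : Set U).encard =
            (insert u T₂).encard := by
          apply Set.encard_diff_add_encard_of_subset
          intro y hy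
          rcases hy with g | g
          · rw [g]; exact Set.mem_insert_of_mem _ hz
          · rw [g]; exact Set.mem_insert_of_mem _ he
        rw [hTc, Set.encard_pair hze] at h3
        exact ((ENat.add_le_add_iff_right (by simp)).1 h3.le)
      have h4 := hp (insert u T₂ \ {z, e}) Set.diff_subset hMc
      have h5 := mem_hull_sum h1 h2 (Set.diff_subset.trans hTX) h4
      have h6 := h5.2.1 h
      refine (Set.sInter_subset_of_mem (show D ∈ {A | A ∈ C₁ ∧ _ ⊆ A} from ⟨hD, ?_⟩)) h6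
      rintro y ⟨⟨hy, hy'⟩, hy1⟩
      have : y = z ∨ y = e := by
        by_contra hc'
        exact hy' ⟨hy, fun g => hc' (by
          rcases g with g | g
          · left; exact g
          · right; exact g)⟩
      rcases this with g | g
      · rw [g] at hy1; exact absurd hy1 hz1
      · rw [g]; exact heD
    have hpX2 : p ∈ X₂ := by
      rcases (hs e he).1 with h | h
      · by_contra h'
        exact huD (hone p h h' ▸ hpD h)
      · exact h
    refine ⟨p, hpX2, ?_, fun s hs' => (hs s hs').2 hpX2⟩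
    by_cases c : p ∈ X₁
    · right; exact hpD c
    · left; exact c
  have step : ∀ x ∈ X₂, (x ∉ X₁ ∨ x ∈ D) → ∀ w ∈ X₂, ∃ p, p ∈ X₂ ∧ (p ∉ X₁ ∨ p ∈ D) ∧
      p ∈ hull C₂ {x} ∧ p ∈ hull C₂ {w} := by
    intro x hx hx' w hw
    have h3 : ∀ e ∈ X₂, ((∃ z, (z = x ∨ z = e) ∧ z ∉ X₁) ∧ ∃ z, (z = x ∨ z = e) ∧ z ∈ D) →
        ∃ p, p ∈ X₂ ∧ (p ∉ X₁ ∨ p ∈ D) ∧ p ∈ hull C₂ {x} ∧ p ∈ hull C₂ {w} := by
      rintro e he ⟨⟨z, hz, hz1⟩, ⟨z', hz', hz1'⟩⟩
      obtain ⟨T₂, hsub, hT₂, hTc⟩ := Set.exists_superset_subset_encard_eq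
        (s := ({x, w, e} : Set U)) (t := X₂) (k := (σ : ℕ∞) + 1) (by
          intro y hy
          simp only [Set.mem_insert_iff, Set.mem_singleton_iff] at hy
          rcases hy with g | g | g <;> rw [g]
          · exact hx
          · exact hw
          · exact he) (by
          have e1 : ({x, w, e} : Set U).encard ≤ 3 := by
            refine (Set.encard_insert_le _ _).trans ?_
            have : ({w, e} : Set U).encard ≤ 2 := by
              refine (Set.encard_insert_le _ _).trans ?_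
              rw [Set.encard_singleton]
              norm_num
            calc ({w, e} : Set U).encard + 1 ≤ 2 + 1 := add_le_add_left this 1
              _ = 3 := by norm_num
          refine e1.trans ?_
          have : ((3 : ℕ) : ℕ∞) ≤ ((σ + 1 : ℕ) : ℕ∞) := by exact_mod_cast (by omega)
          exact_mod_cast this) hX2
      have hxT : x ∈ T₂ := hsub (by simp)
      have hwT : w ∈ T₂ := hsub (by simp)
      have heT : e ∈ T₂ := hsub (by simp)
      obtain ⟨p, hp, hp', hp''⟩ := main T₂ hT₂ hTc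
        ⟨z, by rcases hz with g | g <;> rw [g] <;> assumption, hz1⟩
        ⟨z', by rcases hz' with g | g <;> rw [g] <;> assumption, hz1'⟩
      exact ⟨p, hp, hp', hp'' x hxT, hp'' w hwT⟩
    rcases hx' with hx' | hx'
    · exact h3 d hd2 ⟨⟨x, Or.inl rfl, hx'⟩, ⟨d, Or.inr rfl, hd⟩⟩
    · exact h3 v hv ⟨⟨v, Or.inr rfl, hv1⟩, ⟨x, Or.inl rfl, hx'⟩⟩
  -- all finite subsets of `X₂`
  have fin : ∀ F : Set U, F.Finite → F ⊆ X₂ → ∃ p, p ∈ X₂ ∧ (p ∉ X₁ ∨ p ∈ D) ∧
      ∀ s ∈ F, p ∈ hull C₂ {s} := by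
    intro F hF
    induction F, hF using Set.Finite.induction_on with
    | empty => intro _; exact ⟨v, hv, Or.inl hv1, fun s hs => absurd hs (Set.notMem_empty s)⟩
    | @insert w F _ _ ih =>
      intro hsub
      obtain ⟨x, hx, hx', hx''⟩ := ih ((Set.subset_insert _ _).trans hsub)
      obtain ⟨p, hp, hp', hp1, hp2⟩ := step x hx hx' w (hsub (Set.mem_insert _ _))
      refine ⟨p, hp, hp', ?_⟩
      intro s hs
      rcases Set.mem_insert_iff.1 hs with g | g
      · rw [g]; exact hp2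
      · exact hull_le_of_mem h2 (Set.singleton_subset_iff.2
          (hsub (Set.mem_insert_of_mem _ g))) (hx'' s g) hp1
  obtain ⟨S, hS, hcard, hc⟩ := exists_empty_core hb
  obtain ⟨F, hFS, hFc⟩ := Set.exists_subset_encard_eq hcard
  have hFfin : F.Finite := by
    rw [← Set.encard_lt_top_iff, hFc]
    exact_mod_cast ENat.coe_lt_top (σ + 1)
  obtain ⟨p, hp, _, hp'⟩ := fin F hFfin (hFS.trans hS)
  have : p ∈ core σ C₂ S := by
    intro M hM hMs
    have hne : (F \ M).Nonempty := by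
      rw [Set.nonempty_iff_ne_empty]
      intro he
      have := (Set.encard_le_encard (Set.diff_eq_empty.1 he)).trans hMs
      rw [hFc] at this
      have h3 : (σ:ℕ∞) < (σ:ℕ∞) + 1 := by exact_mod_cast Nat.lt_succ_self σ
      exact absurd this (not_le.2 h3)
    obtain ⟨s, hs, hsM⟩ := hne
    have hsub : ({s} : Set U) ⊆ S \ M := by
      intro y hy
      rw [Set.mem_singleton_iff.1 hy]
      exact ⟨hFS hs, hsM⟩
    exact hull_mono hsub (hp' s hs)
  rw [hc] at this
  exact this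

/-- the lower bound `σ + 2` for `σ ≥ 2` -/
theorem lower_two {σ : ℕ} (hσ : 2 ≤ σ) {X₁ : Set U} {C₁ : Set (Set U)} {X₂ : Set U}
    {C₂ : Set (Set U)} (h1 : Aligned X₁ C₁) (h2 : Aligned X₂ C₂) :
    min (min (helly σ X₁ C₁) (helly σ X₂ C₂)) (σ + 2)
      ≤ helly σ (X₁ ∪ X₂) (sumC X₁ C₁ X₂ C₂) := by
  by_contra hlt
  push Not at hlt
  have hbase := lower_general (σ := σ) (by omega) h1 h2
  rw [lt_min_iff, lt_min_iff] at hlt
  have h3 : (σ : ℕ∞) + 1 ≤ helly σ (X₁ ∪ X₂) (sumC X₁ C₁ X₂ C₂) := by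
    rcases min_le_iff.1 hbase with g | g
    · rcases min_le_iff.1 g with g' | g'
      · exact absurd hlt.1.1 (not_lt.2 g')
      · exact absurd hlt.1.2 (not_lt.2 g')
    · exact g
  have h0 : (σ:ℕ∞) < (σ:ℕ∞) + 1 := by exact_mod_cast Nat.lt_succ_self σ
  have ha : (σ : ℕ∞) < helly σ X₁ C₁ := (h0.trans_le h3).trans hlt.1.1
  have hb : (σ : ℕ∞) < helly σ X₂ C₂ := (h0.trans_le h3).trans hlt.1.2
  by_cases a : X₁ ⊆ X₂
  · exact absurd hlt.1.2 (not_lt.2 (ge_of_small h1 h2 (Or.inr a)))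
  by_cases b : X₂ ⊆ X₁
  · have := ge_of_small (σ := σ) h2 h1 (Or.inr b)
    rw [sumC_comm, Set.union_comm] at this
    exact absurd hlt.1.1 (not_lt.2 this)
  obtain ⟨u, hu1, hu2⟩ := Set.not_subset.1 a
  obtain ⟨v, hv1, hv2⟩ := Set.not_subset.1 b
  by_cases c1 : ∀ x ∈ X₁, x ∉ X₂ → x = u
  · exact absurd hlt.2 (not_lt.2 (low_one hσ h1 h2 ha hb hu1 hu2 c1 hv1 hv2))
  by_cases c2 : ∀ x ∈ X₂, x ∉ X₁ → x = v
  · have := low_one hσ h2 h1 hb ha hv1 hv2 c2 hu1 hu2
    rw [sumC_comm, Set.union_comm] at this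
    exact absurd hlt.2 (not_lt.2 this)
  push Not at c1 c2
  obtain ⟨u', hu1', hu2', hune⟩ := c1
  obtain ⟨v', hv1', hv2', hvne⟩ := c2
  have hcard : (σ : ℕ∞) + 2 ≤ (X₁ ∪ X₂).encard := by
    have h4 : (insert v X₁).encard = X₁.encard + 1 := Set.encard_insert_of_notMem hv2
    have h5 : (σ : ℕ∞) + 1 ≤ X₁.encard := (Order.add_one_le_of_lt ha).trans helly_le_encard
    have h6 : insert v X₁ ⊆ X₁ ∪ X₂ := Set.insert_subset (Or.inr hv1) Set.subset_union_left
    calc (σ : ℕ∞) + 2 = (σ + 1) + 1 := by rw [add_assoc]; norm_num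
      _ ≤ X₁.encard + 1 := add_le_add_left h5 1
      _ = (insert v X₁).encard := h4.symm
      _ ≤ _ := Set.encard_le_encard h6
  obtain ⟨T, hsub, hT, hTc⟩ := Set.exists_superset_subset_encard_eq
    (s := ({u, u', v, v'} : Set U)) (t := X₁ ∪ X₂) (k := (σ : ℕ∞) + 2) (by
      intro y hy
      simp only [Set.mem_insert_iff, Set.mem_singleton_iff] at hy
      rcases hy with g | g | g | g <;> rw [g]
      · left; exact hu1
      · left; exact hu1'
      · right; exact hv1
      · right; exact hv1') (by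
      have e1 : ({u, u', v, v'} : Set U).encard ≤ 2 + 2 := by
        have : ({u, u', v, v'} : Set U) = {u, u'} ∪ {v, v'} := by
          ext y
          simp only [Set.mem_insert_iff, Set.mem_singleton_iff, Set.mem_union]
          tauto
        rw [this]
        refine (Set.encard_union_le _ _).trans (add_le_add ?_ ?_)
        · exact (Set.encard_pair (Ne.symm hune)).le
        · exact (Set.encard_pair (Ne.symm hvne)).le
      exact e1.trans (add_le_add_left (by exact_mod_cast hσ) 2)) hcard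
  have hcore : core σ (sumC X₁ C₁ X₂ C₂) T = ∅ := by
    apply Set.eq_empty_of_forall_notMem
    intro p hp
    have key : ∀ (X : Set U) (x y : U), x ∈ T → y ∈ T → x ∉ X → y ∉ X → y ≠ x →
        (T ∩ X).encard ≤ σ := by
      intro X x y hx hy hxX hyX hne
      have h4 : (T \ {x, y}).encard + ({x, y} : Set U).encard = T.encard := by
        apply Set.encard_diff_add_encard_of_subset
        intro z hz
        rcases hz with g | g
        · rw [g]; exact hx
        · rw [g]; exact hy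
      rw [hTc, Set.encard_pair (Ne.symm hne)] at h4
      have h5 := ((ENat.add_le_add_iff_right (by simp)).1 h4.le)
      refine (Set.encard_le_encard ?_).trans h5
      rintro z ⟨hz, hzX⟩
      refine ⟨hz, fun g => ?_⟩
      rcases g with g | g
      · rw [g] at hzX; exact hxX hzX
      · rw [g] at hzX; exact hyX hzX
    have g1 := mem_hull_sum h1 h2 (Set.diff_subset.trans hT) (hp (T ∩ X₁) Set.inter_subset_left
      (key X₁ v v' (hsub (by simp)) (hsub (by simp)) hv2 hv2' hvne))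
    have g2 := mem_hull_sum h1 h2 (Set.diff_subset.trans hT) (hp (T ∩ X₂) Set.inter_subset_left
      (key X₂ u u' (hsub (by simp)) (hsub (by simp)) hu2 hu2' hune))
    have e1 : ∀ X : Set U, (T \ (T ∩ X)) ∩ X = ∅ := by
      intro X
      ext y
      simp only [Set.mem_inter_iff, Set.mem_diff, Set.mem_empty_iff_false, iff_false]
      rintro ⟨⟨q1, q2⟩, q3⟩
      exact q2 ⟨q1, q3⟩
    rw [e1 X₁, hull_empty h1] at g1
    rw [e1 X₂, hull_empty h2] at g2
    rcases g1.1 with h | h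
    · exact g1.2.1 h
    · exact g2.2.2 h
  have := encard_le_helly hT hcore
  rw [hTc] at this
  exact absurd this (not_le.2 hlt.2)

end Pool.Agent.X13.AS
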